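import Pool.Agent.Y951.SQ.Main

/-!
# Rationality of Artin L-values at integers larger than one, up to sign
-/

set_option autoImplicit false

open Pool.Agent.Y691.ST Pool.Agent.Y951.SE Pool.Agent.Y951.SQ

namespace Pool.Agent.Results.MP_7a4658_nt.UpToSign

/-- **Rationality of Artin L-values at `s = r > 1`, up to sign.** Let `r > 1`, let `σ` be an
automorphism of `ℂ` and let `D U θ` be the quotient `A(θ)^σ / A(θ^σ)` for the Artin character `θ` of the
number field `K = Qbar^U`, with its known properties; `A(θ)` is the regulator of the problem divided by
the leading coefficient of the `L`-function at `r`. The conjecture says that `D U θ = 1`. Let `m = 1` (or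
any `m`) and suppose that it is true for the linear characters of the totally complex number fields
(`D U θ ^ m = 1`).

* Then it is true up to sign for all number fields `K` and all characters of all finite Galois
  extensions of `K`: `D U θ = ±1` (`D U θ ^ (2m) = 1`).
* If `L / K` is a finite Galois extension such that there is no cyclic quartic extension `K₂ / K₁` with
  `K ⊆ K₁ ⊆ K₂ ⊆ L` and with a real place of `K₁` (for example if `Gal(L / K)` has no element of order
  `4`), then it is true for the characters of `Gal(L / K)` (`D U θ ^ m = 1`). -/
theorem result {d : (GalQ → ℂ) → ℂˣ} {D : (U : Subgroup GalQ) → (U → ℂ) → ℂˣ}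
    (hD : IsBorelDefect d D) {m : ℕ} (h : HoldsLinear TotallyComplex (fun U θ => D U θ ^ m)) :
    HoldsPower D (2 * m) ∧ HoldsNoQuartic D m := by
  obtain ⟨h1, h2, -⟩ := main (isDef'_of_borel hD) hD.ind h
  exact ⟨h1, h2⟩

end Pool.Agent.Results.MP_7a4658_nt.UpToSign
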